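import Pool.Agent.Helper79.GL4.GoalsB

/-!
# GL4: packet LTW (MP_27a5f8_al)
-/

set_option linter.unusedVariables false

namespace GL4

open Module Submodule

theorem ltw : LTW := by
  intro F _ _ V _ _ _ K P H c c' B C B' C' hn hP hH hPH hbc hbc' hc
  have hH' : Hy (H.map P.mkQ) := hH.down hPH
  have hHd : finrank F H + 1 = finrank F V := hH
  -- `Z`
  have hZdim : finrank F ((C (H.map P.mkQ)).comap P.mkQ) = c + 1 := by
    rw [finrank_up, hbc.dimC _ hH', hP]
  have hCH : C (H.map P.mkQ) ≤ H.map P.mkQ := by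
    apply le_of_pts
    intro x hx hxC
    exact (hbc.selfB x hx).trans ((hbc.adj x _ hx hH').1 hxC)
  have hZH : (C (H.map P.mkQ)).comap P.mkQ ≤ H := by
    have h := up_le_up.2 hCH
    rwa [up_down hPH] at h
  have hZinv : ∀ k ∈ K, im k P = P → im k H = H →
      im k ((C (H.map P.mkQ)).comap P.mkQ) = (C (H.map P.mkQ)).comap P.mkQ := by
    intro k hk hkP hkH
    obtain ⟨g, hg, hgk⟩ := exists_qGrp hk hkP
    have h1 : im g (H.map P.mkQ) = H.map P.mkQ := by rw [im_down hgk, hkH]
    have h2 := hbc.eqC g hg _ hH'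
    rw [h1] at h2
    rw [← im_up hkP hgk, ← h2]
  -- the point `P` inside `H`
  have hPH' : Pt (P.comap H.subtype) := by
    rw [Pt, finrank_restr hPH]; exact hP
  have hB'dim := hbc'.dimB _ hPH'
  have hZ0dim : finrank F ((B' (P.comap H.subtype)).map H.subtype) + c' = finrank F H := by
    rw [finrank_incl]; exact hB'dim
  have key : (C (H.map P.mkQ)).comap P.mkQ ≤ (B' (P.comap H.subtype)).map H.subtype := by
    by_contra hcon
    obtain ⟨y, hy, hyZ, hyZ0⟩ := exists_pt_not_le hcon
    have hyH : y ≤ H := hyZ.trans hZH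
    have hyH' : Pt (y.comap H.subtype) := by
      rw [Pt, finrank_restr hyH]; exact hy
    have hyB : ¬ y.comap H.subtype ≤ B' (P.comap H.subtype) := by
      intro h
      apply hyZ0
      have := incl_le_incl.2 h
      rwa [incl_restr hyH] at this
    have hall : ∀ z, Pt z → z ≤ H → ¬ z ≤ (B' (P.comap H.subtype)).map H.subtype →
        z ≤ (C (H.map P.mkQ)).comap P.mkQ := by
      intro z hz hzH hzZ0
      have hzH' : Pt (z.comap H.subtype) := by
        rw [Pt, finrank_restr hzH]; exact hz
      have hzB : ¬ z.comap H.subtype ≤ B' (P.comap H.subtype) := by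
        intro h
        apply hzZ0
        have := incl_le_incl.2 h
        rwa [incl_restr hzH] at this
      obtain ⟨g, hg, hgP, hgy⟩ := hbc'.trB _ _ _ hPH' hyH' hzH' hyB hzB
      obtain ⟨k, hk, hkH, hgk⟩ := hg
      have e1 := im_incl hgk (P.comap H.subtype)
      rw [hgP, incl_restr hPH] at e1
      have e2 := im_incl hgk (y.comap H.subtype)
      rw [hgy, incl_restr hyH, incl_restr hzH] at e2
      have e3 := hZinv k hk e1.symm hkH
      rw [e2, ← e3]
      exact im_mono k hyZ
    have h1 : ¬ H ≤ (C (H.map P.mkQ)).comap P.mkQ := by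
      intro h
      have := Submodule.finrank_mono h
      omega
    have h2 : ¬ H ≤ (B' (P.comap H.subtype)).map H.subtype := by
      intro h
      have := Submodule.finrank_mono h
      have := hbc'.c1
      omega
    obtain ⟨x, hx, hxH, hx1, hx2⟩ := exists_pt_not_le₂ h1 h2
    exact hx1 (hall x hx hxH hx2)
  have := Submodule.finrank_mono key
  omega

end GL4
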